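import Mathlib
import Pool.Agent.R439.T3C

set_option autoImplicit false

namespace Pool.Agent.Results.MP_3ec1f3_nt.AllPrimePowers

open Finset Pool.Agent.R439

/-- The rising factorial `(a)_k = a (a+1) ⋯ (a+k-1)`. -/
def rise (a : ℚ) (k : ℕ) : ℚ := ∏ i ∈ range k, (a + i)

/-- `α_r = (p^r - 1)/(p^(r+1) - 1)`. -/
def alpha (p r : ℕ) : ℚ := ((p : ℚ) ^ r - 1) / ((p : ℚ) ^ (r + 1) - 1)

/-- `N_r = 1 + p + ⋯ + p^r`. -/
def NN (p r : ℕ) : ℕ := ∑ i ∈ range (r + 1), p ^ i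

/-- The sum `S_r(p)` of the problem. -/
def S (r p : ℕ) : ℚ :=
  ∑ k ∈ range (p ^ r), (2 * (k : ℚ) / alpha p r + 1) *
    (rise (alpha p r) k / (k.factorial : ℚ)) ^ (2 * NN p r)

theorem rise_eq (x : ℚ) (N k : ℕ) : (rise (1 - x) k / (k.factorial : ℚ)) ^ (2 * N) = T3.D x N k := by
  induction k with
  | zero => simp [rise, T3.D]
  | succ k ih =>
    rw [T3.D_succ, ← ih]
    unfold rise
    rw [prod_range_succ, Nat.factorial_succ, ← mul_pow]
    congr 1
    have h1 : ((k.factorial : ℕ) : ℚ) ≠ 0 := by exact_mod_cast k.factorial_ne_zero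
    have h2 : ((k : ℚ) + 1) ≠ 0 := by positivity
    push_cast
    field_simp
    ring

/-- **Answer to Q2 (and hence Q1, the case `r = 1`)**: for every prime `p > 3` and every
`r ≥ 1`, `S_r(p) ≡ 0 (mod p^(2r+5))`. -/
theorem result : ∀ p r : ℕ, p.Prime → 3 < p → 0 < r →
    ∃ u v : ℤ, ¬ (p : ℤ) ∣ v ∧ S r p = (p : ℚ) ^ (2 * r + 5) * ((u : ℚ) / v) := by
  intro p r hp h3 hr
  have : Fact p.Prime := ⟨hp⟩
  have h5 : 5 ≤ p := by
    by_contra h
    have : p = 4 := by omega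
    rw [this] at hp
    exact absurd hp (by norm_num)
  have hpos : 0 < p ^ r := pow_pos hp.pos _
  have D0 : T3.Dat p r (NN p r) (p ^ r - 1) (∑ i ∈ range r, p ^ i) := by
    refine ⟨h5, hr, by omega, ?_⟩
    unfold NN
    rw [sum_range_succ', pow_zero, mul_sum, add_comm]
    congr 1
    exact sum_congr rfl fun i _ => by ring
  have hT := D0.T_sum
  rw [Nat.sub_add_cancel (show 1 ≤ p ^ r from hpos)] at hT
  have hNc : (NN p r : ℚ) * ((p : ℚ) - 1) = (p : ℚ) ^ (r + 1) - 1 := by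
    unfold NN
    push_cast
    exact geom_sum_mul (p : ℚ) (r + 1)
  have hp1 : (1 : ℚ) < p := by exact_mod_cast hp.one_lt
  have hq : (1 : ℚ) < (p : ℚ) ^ (r + 1) := one_lt_pow₀ hp1 (by omega)
  have hq' : (1 : ℚ) < (p : ℚ) ^ r := one_lt_pow₀ hp1 hr.ne'
  have hN0 := D0.U_N.1
  have hal : alpha p r = 1 - T3.xx p r (NN p r) := by
    unfold alpha T3.xx
    have h1 : (p : ℚ) ^ (r + 1) - 1 ≠ 0 := by linarith
    rw [div_eq_iff h1, ← hNc]
    have h2 : (1 - (p : ℚ) ^ r / (NN p r : ℚ)) * ((NN p r : ℚ) * ((p : ℚ) - 1)) =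
        ((NN p r : ℚ) * ((p : ℚ) - 1)) - (p : ℚ) ^ r * ((p : ℚ) - 1) := by
      field_simp
    rw [h2, hNc]
    ring
  have hUal : PL.U p (alpha p r) := by
    have hA : ¬ (p : ℤ) ∣ (p : ℤ) ^ r - 1 := by
      intro h
      have h1 : (p : ℤ) ∣ (p : ℤ) ^ r := dvd_pow_self _ hr.ne'
      have h2 := dvd_sub h1 h
      rw [sub_sub_cancel] at h2
      exact (PL.pz (p := p)).not_dvd_one h2
    have hB : ¬ (p : ℤ) ∣ (p : ℤ) ^ (r + 1) - 1 := by
      intro h
      have h1 : (p : ℤ) ∣ (p : ℤ) ^ (r + 1) := dvd_pow_self _ (by omega)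
      have h2 := dvd_sub h1 h
      rw [sub_sub_cancel] at h2
      exact (PL.pz (p := p)).not_dvd_one h2
    have := PL.U_rat (p := p) hA hB
    unfold alpha
    push_cast at this
    exact this
  have hS : alpha p r * S r p = ∑ k ∈ range (p ^ r), (2 * (k : ℚ) + 1 - T3.xx p r (NN p r)) *
      T3.D (T3.xx p r (NN p r)) (NN p r) k := by
    unfold S
    rw [mul_sum]
    refine sum_congr rfl fun k _ => ?_
    have h1 : (rise (alpha p r) k / (k.factorial : ℚ)) ^ (2 * NN p r) =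
        T3.D (T3.xx p r (NN p r)) (NN p r) k := by
      rw [hal]; exact rise_eq _ _ _
    rw [h1]
    have h2 := hUal.1
    have h3 : alpha p r * (2 * (k : ℚ) / alpha p r + 1) = 2 * k + alpha p r := by
      field_simp
    rw [← mul_assoc, h3]
    rw [hal]
    ring
  rw [← hS] at hT
  obtain ⟨y, ⟨u, v, hv, rfl⟩, hy⟩ := hUal.cancel hT
  exact ⟨u, v, hv, hy⟩

end Pool.Agent.Results.MP_3ec1f3_nt.AllPrimePowers
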